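import Pool.Agent.H56.E.Base
import Pool.Agent.H56.E.H56.G3.TI

/-!
# Theorem (G), MP_c59857_nt, row ER: the functional on the multiples of `p`
-/

set_option autoImplicit false

namespace Pool.Agent.H56.E.H14.G3

open Pool.Agent.H14.G3

open Finset Pool.Agent.H6.N4D Pool.Agent.H78.GX.H6.N4D Pool.Agent.H93.EB Pool.Agent.H93.GS Pool.Agent.H56.G3 Pool.Agent.H56.E.H56.G3

theorem er_conj (x : ℝ) : (starRingEnd ℂ) (ee x) = ee (-x) := by
  unfold ee
  rw [← Complex.exp_conj, map_mul, Complex.conj_I, Complex.conj_ofReal]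
  congr 1
  push_cast
  ring

/-- sums over the multiples of `p` in a window -/
theorem er_mult {p : ℕ} (hp : 1 ≤ p) (n N : ℕ) (F : ℕ → ℂ) :
    ∑ m ∈ (Ioc n (n + N)).filter (fun m => p ∣ m), F m =
      ∑ k ∈ Ioc (n / p) (n / p + ((n + N) / p - n / p)), F (p * k) := by
  have h0 : n / p + ((n + N) / p - n / p) = (n + N) / p := by
    have : n / p ≤ (n + N) / p := Nat.div_le_div_right (by omega)
    omega
  rw [h0]
  symm
  refine Finset.sum_nbij (fun k => p * k) ?_ ?_ ?_ ?_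
  · intro k hk
    rw [mem_Ioc] at hk
    rw [mem_filter, mem_Ioc]
    refine ⟨⟨?_, ?_⟩, Dvd.intro _ rfl⟩
    · have := (Nat.div_lt_iff_lt_mul (by omega : 0 < p)).1 hk.1
      rwa [mul_comm] at this
    · have := (Nat.le_div_iff_mul_le (by omega : 0 < p)).1 hk.2
      rwa [mul_comm] at this
  · intro k _ k' _ h
    exact Nat.eq_of_mul_eq_mul_left (by omega) h
  · intro m hm
    rw [mem_coe, mem_filter, mem_Ioc] at hm
    obtain ⟨⟨h1, h2⟩, k, rfl⟩ := hm
    refine ⟨k, ?_, rfl⟩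
    rw [mem_coe, mem_Ioc]
    refine ⟨?_, ?_⟩
    · rw [Nat.div_lt_iff_lt_mul (by omega : 0 < p), mul_comm]
      exact h1
    · rw [Nat.le_div_iff_mul_le (by omega : 0 < p), mul_comm]
      exact h2
  · intro k _
    rfl

/-- the sum of `D p` against an exponential -/
noncomputable def erT (p N n : ℕ) (β : ℝ) : ℂ :=
  ∑ m ∈ Ioc n (n + N), (D p m : ℂ) * ee (β * m)

theorem erT_eq (p N n : ℕ) (β : ℝ) : erT p N n β =
    p * ∑ m ∈ (Ioc n (n + N)).filter (fun m => p ∣ m), ee (β * m) -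
      ∑ m ∈ Ioc n (n + N), ee (β * m) := by
  unfold erT
  rw [Finset.sum_filter, Finset.mul_sum, ← Finset.sum_sub_distrib]
  refine Finset.sum_congr rfl fun m _ => ?_
  unfold D
  by_cases h : p ∣ m
  · rw [if_pos h, if_pos h]
    push_cast
    ring
  · rw [if_neg h, if_neg h]
    push_cast
    ring

theorem erT_zero {p N n : ℕ} (hp : 1 ≤ p) : ‖erT p N n 0‖ ≤ p := by
  have h1 : erT p N n 0 = (((p : ℝ) * (((n + N) / p : ℕ) - ((n / p : ℕ) : ℝ)) - N : ℝ) : ℂ) := by
    rw [erT_eq, er_mult hp]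
    have hle : n / p ≤ (n + N) / p := Nat.div_le_div_right (by omega)
    have e0 : ee 0 = 1 := by
      have := ee_int 0
      rwa [Int.cast_zero] at this
    simp only [zero_mul, e0, Finset.sum_const, Nat.card_Ioc, Nat.add_sub_cancel_left,
      nsmul_eq_mul, mul_one]
    rw [Nat.cast_sub hle]
    push_cast
    ring
  rw [h1, Complex.norm_real, Real.norm_eq_abs]
  have hp0 : (0 : ℝ) < p := by
    have : 0 < p := by omega
    exact_mod_cast this
  have a1 : ((n / p : ℕ) : ℝ) * p ≤ n := by exact_mod_cast Nat.div_mul_le_self n p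
  have a2 : (((n + N) / p : ℕ) : ℝ) * p ≤ n + N := by
    exact_mod_cast Nat.div_mul_le_self (n + N) p
  have a3 : (n : ℝ) < ((n / p : ℕ) : ℝ) * p + p := by
    exact_mod_cast Nat.lt_div_mul_add (by omega : 0 < p)
  have a4 : ((n : ℝ) + N) < (((n + N) / p : ℕ) : ℝ) * p + p := by
    have := Nat.lt_div_mul_add (a := n + N) (by omega : 0 < p)
    exact_mod_cast this
  rw [abs_le]
  constructor
  · have : (p : ℝ) * ((((n + N) / p : ℕ) : ℝ) - ((n / p : ℕ) : ℝ)) =
      (((n + N) / p : ℕ) : ℝ) * p - ((n / p : ℕ) : ℝ) * p := by ring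
    linarith
  · have : (p : ℝ) * ((((n + N) / p : ℕ) : ℝ) - ((n / p : ℕ) : ℝ)) =
      (((n + N) / p : ℕ) : ℝ) * p - ((n / p : ℕ) : ℝ) * p := by ring
    linarith

theorem erT_le (hRG : T_RG) {p N n : ℕ} (hp : 1 ≤ p) (hN : 1 ≤ N) {Lam β : ℝ} (hL : 0 < Lam)
    (h1 : Lam / N ≤ nd β) (h2 : Lam * p / N ≤ nd (p * β)) : ‖erT p N n β‖ ≤ N / Lam := by
  have hp0 : (0 : ℝ) < p := by
    have : 0 < p := by omega
    exact_mod_cast this
  have hN0 : (0 : ℝ) < N := by
    have : 0 < N := by omega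
    exact_mod_cast this
  have hb1 : 0 < nd β := lt_of_lt_of_le (by positivity) h1
  have hb2 : 0 < nd (p * β) := lt_of_lt_of_le (by positivity) h2
  have r1 := hRG β N n hb1
  have r2 := hRG (p * β) ((n + N) / p - n / p) (n / p) hb2
  rw [erT_eq, er_mult hp]
  have e1 : ∑ k ∈ Ioc (n / p) (n / p + ((n + N) / p - n / p)), ee (β * ((p * k : ℕ) : ℝ)) =
      ∑ k ∈ Ioc (n / p) (n / p + ((n + N) / p - n / p)), ee (p * β * (k : ℝ)) := by
    refine Finset.sum_congr rfl fun k _ => ?_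
    congr 1
    push_cast
    ring
  rw [e1]
  refine (norm_sub_le _ _).trans ?_
  rw [norm_mul, Complex.norm_natCast]
  have s1 : 1 / (2 * nd β) ≤ N / Lam / 2 := by
    rw [div_le_div_iff₀ (by positivity) (by norm_num)]
    rw [div_le_iff₀ hN0] at h1
    have : 1 ≤ N / Lam * nd β := by
      rw [div_mul_eq_mul_div, le_div_iff₀ hL]
      linarith
    linarith
  have s2 : (p : ℝ) * (1 / (2 * nd (p * β))) ≤ N / Lam / 2 := by
    rw [div_le_iff₀ hN0] at h2
    have h3 : (p : ℝ) ≤ N / Lam * nd (p * β) := by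
      rw [div_mul_eq_mul_div, le_div_iff₀ hL]
      linarith
    rw [mul_one_div, div_le_div_iff₀ (by positivity) (by norm_num)]
    linarith
  have s3 := mul_le_mul_of_nonneg_left r2 hp0.le
  linarith

theorem er_diff (p N n : ℕ) (F : ℕ → ℝ) :
    ar p N n F - ar 1 N n F = (∑ m ∈ Ioc n (n + N), D p m * F m) / N := by
  have h1 : (Ioc n (n + N)).filter (fun m => 1 ∣ m) = Ioc n (n + N) :=
    Finset.filter_true_of_mem fun m _ => one_dvd m
  unfold ar
  rw [h1, Nat.cast_one, mul_one, ← sub_div, Finset.sum_filter, Finset.sum_mul,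
    ← Finset.sum_sub_distrib]
  congr 1
  refine Finset.sum_congr rfl fun m _ => ?_
  unfold D
  by_cases h : p ∣ m
  · rw [if_pos h, if_pos h]
    ring
  · rw [if_neg h, if_neg h]
    ring

theorem er_lin (lam : ℕ → ℝ) (p N n : ℕ) (g : Ex) (hN : 1 ≤ N) :
    |∑ m ∈ Ioc n (n + N), D p m * (2 * lam m * (g.f m).re)| ≤
      N * (2 * ∑ i ∈ range g.k, ‖g.c i‖ * zz lam p N n (g.a i) (fun _ => 1)) := by
  have hN0 : (0 : ℝ) < N := by
    have : 0 < N := by omega
    exact_mod_cast this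
  have h1 : ∑ m ∈ Ioc n (n + N), D p m * (2 * lam m * (g.f m).re) =
      (2 * ∑ i ∈ range g.k, g.c i * ∑ m ∈ Ioc n (n + N),
        (lam m : ℂ) * (D p m : ℂ) * ee (g.a i * m)).re := by
    have h2 : (2 * ∑ i ∈ range g.k, g.c i * ∑ m ∈ Ioc n (n + N),
        (lam m : ℂ) * (D p m : ℂ) * ee (g.a i * m)) =
        ∑ m ∈ Ioc n (n + N), ((D p m * (2 * lam m) : ℝ) : ℂ) * g.f m := by
      simp only [Finset.mul_sum]
      rw [Finset.sum_comm]
      refine Finset.sum_congr rfl fun m _ => ?_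
      unfold Ex.f
      rw [Finset.mul_sum]
      refine Finset.sum_congr rfl fun i _ => ?_
      push_cast
      ring
    rw [h2, Complex.re_sum]
    refine Finset.sum_congr rfl fun m _ => ?_
    rw [Complex.re_ofReal_mul]
    ring
  rw [h1]
  refine (Complex.abs_re_le_norm _).trans ?_
  rw [norm_mul, Complex.norm_ofNat]
  have h3 : ‖∑ i ∈ range g.k, g.c i * ∑ m ∈ Ioc n (n + N),
      (lam m : ℂ) * (D p m : ℂ) * ee (g.a i * m)‖ ≤
      ∑ i ∈ range g.k, ‖g.c i‖ * (N * zz lam p N n (g.a i) (fun _ => 1)) := by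
    refine (norm_sum_le _ _).trans (Finset.sum_le_sum fun i _ => ?_)
    rw [norm_mul]
    refine mul_le_mul_of_nonneg_left (le_of_eq ?_) (norm_nonneg _)
    unfold zz
    rw [norm_div, Complex.norm_natCast, mul_div_cancel₀ _ hN0.ne']
    rw [← RCLike.norm_conj (∑ m ∈ Ioc n (n + N), (lam m : ℂ) * (D p m : ℂ) *
      ee (-(g.a i * m)) * 1), map_sum]
    congr 1
    refine Finset.sum_congr rfl fun m _ => ?_
    rw [mul_one, map_mul, map_mul, Complex.conj_ofReal, Complex.conj_ofReal, er_conj, neg_neg]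
  have h4 : ∑ i ∈ range g.k, ‖g.c i‖ * (N * zz lam p N n (g.a i) (fun _ => 1)) =
      N * ∑ i ∈ range g.k, ‖g.c i‖ * zz lam p N n (g.a i) (fun _ => 1) := by
    rw [Finset.mul_sum]
    exact Finset.sum_congr rfl fun i _ => by ring
  rw [h4] at h3
  linarith

theorem er_quad (p N n : ℕ) (g : Ex) (B : ℝ)
    (hB : ∀ i < g.k, ∀ j < g.k, ‖erT p N n (g.a i - g.a j)‖ ≤ B) :
    |∑ m ∈ Ioc n (n + N), D p m * ‖g.f m‖ ^ 2| ≤ g.nm ^ 2 * B := by
  have h1 : ((∑ m ∈ Ioc n (n + N), D p m * ‖g.f m‖ ^ 2 : ℝ) : ℂ) =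
      ∑ i ∈ range g.k, ∑ j ∈ range g.k, g.c i * (starRingEnd ℂ) (g.c j) *
        erT p N n (g.a i - g.a j) := by
    have h2 : ∀ m : ℕ, ((D p m * ‖g.f m‖ ^ 2 : ℝ) : ℂ) = ∑ i ∈ range g.k, ∑ j ∈ range g.k,
        g.c i * (starRingEnd ℂ) (g.c j) * ((D p m : ℂ) * ee ((g.a i - g.a j) * m)) := by
      intro m
      have h3 : ((‖g.f m‖ ^ 2 : ℝ) : ℂ) = g.f m * (starRingEnd ℂ) (g.f m) := by
        rw [Complex.mul_conj, Complex.normSq_eq_norm_sq]
      rw [Complex.ofReal_mul, h3]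
      unfold Ex.f
      rw [map_sum, Finset.sum_mul_sum, Finset.mul_sum]
      refine Finset.sum_congr rfl fun i _ => ?_
      rw [Finset.mul_sum]
      refine Finset.sum_congr rfl fun j _ => ?_
      rw [map_mul, er_conj]
      have h4 : ee ((g.a i - g.a j) * m) = ee (g.a i * m) * ee (-(g.a j * m)) := by
        rw [← ee_add]
        congr 1
        ring
      rw [h4]
      ring
    rw [Complex.ofReal_sum, Finset.sum_congr rfl fun m _ => h2 m, Finset.sum_comm]
    refine Finset.sum_congr rfl fun i _ => ?_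
    rw [Finset.sum_comm]
    refine Finset.sum_congr rfl fun j _ => ?_
    unfold erT
    rw [Finset.mul_sum]
  have h5 : |∑ m ∈ Ioc n (n + N), D p m * ‖g.f m‖ ^ 2| =
      ‖((∑ m ∈ Ioc n (n + N), D p m * ‖g.f m‖ ^ 2 : ℝ) : ℂ)‖ := by
    rw [Complex.norm_real, Real.norm_eq_abs]
  rw [h5, h1]
  refine (norm_sum_le _ _).trans ?_
  have h6 : g.nm ^ 2 * B = ∑ i ∈ range g.k, ∑ j ∈ range g.k, ‖g.c i‖ * ‖g.c j‖ * B := by
    unfold Ex.nm
    rw [sq, Finset.sum_mul_sum, Finset.sum_mul]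
    refine Finset.sum_congr rfl fun i _ => ?_
    rw [Finset.sum_mul]
  rw [h6]
  refine Finset.sum_le_sum fun i hi => (norm_sum_le _ _).trans (Finset.sum_le_sum fun j hj => ?_)
  rw [norm_mul, norm_mul, RCLike.norm_conj]
  exact mul_le_mul_of_nonneg_left (hB i (Finset.mem_range.1 hi) j (Finset.mem_range.1 hj))
    (by positivity)

theorem pf_ER (hRG : T_RG) : T_ER := by
  intro th Lam lam p N n g hth hL hlam hp hpN hSp hsep
  have hN : 1 ≤ N := hp.trans hpN
  have hN0 : (0 : ℝ) < N := by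
    have : 0 < N := by omega
    exact_mod_cast this
  have hp0 : (0 : ℝ) ≤ p := Nat.cast_nonneg _
  have hB : ∀ i < g.k, ∀ j < g.k, ‖erT p N n (g.a i - g.a j)‖ ≤ N / Lam + p := by
    intro i hi j hj
    by_cases hij : i = j
    · subst hij
      rw [sub_self]
      have h1 := erT_zero (p := p) (N := N) (n := n) hp
      have h2 : 0 ≤ N / Lam := by positivity
      linarith
    · have h1 := erT_le hRG (p := p) (N := N) (n := n) hp hN hL (hSp i hi j hj hij)
        (hsep i hi j hj hij)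
      linarith
  have hq := er_quad p N n g _ hB
  have hl := er_lin lam p N n g hN
  have hdiff : J th lam p N n g - J th lam 1 N n g =
      (∑ m ∈ Ioc n (n + N), D p m * (2 * lam m * (g.f m).re) -
        ∑ m ∈ Ioc n (n + N), D p m * ‖g.f m‖ ^ 2) / N := by
    unfold J
    have h1 := er_diff p N n (fun m => 2 * lam m * (g.f m).re - ‖g.f m‖ ^ 2)
    have h2 : ∑ m ∈ Ioc n (n + N), D p m * (2 * lam m * (g.f m).re - ‖g.f m‖ ^ 2) =
        ∑ m ∈ Ioc n (n + N), D p m * (2 * lam m * (g.f m).re) -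
        ∑ m ∈ Ioc n (n + N), D p m * ‖g.f m‖ ^ 2 := by
      rw [← Finset.sum_sub_distrib]
      exact Finset.sum_congr rfl fun m _ => by ring
    rw [h2] at h1
    linarith
  rw [hdiff, abs_div, Nat.abs_cast, div_le_iff₀ hN0]
  refine (abs_sub _ _).trans ?_
  have hnm : 0 ≤ g.nm ^ 2 := sq_nonneg _
  have h7 : (2 * ∑ i ∈ range g.k, ‖g.c i‖ * zz lam p N n (g.a i) (fun _ => 1) +
      g.nm ^ 2 * (1 / Lam + 2 * p / N)) * N =
      N * (2 * ∑ i ∈ range g.k, ‖g.c i‖ * zz lam p N n (g.a i) (fun _ => 1)) +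
        g.nm ^ 2 * (N / Lam + p) + g.nm ^ 2 * p := by
    field_simp
    ring
  rw [h7]
  have h8 : 0 ≤ g.nm ^ 2 * p := by positivity
  linarith

end Pool.Agent.H56.E.H14.G3
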