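import Pool.Agent.H56.E.Base
import Pool.Agent.H56.E.H56.G3.TS
import Pool.Agent.H78.GX.H6.N4D.TA

/-!
# Theorem (G), MP_c59857_nt, row SN: sizes on the stretch
-/

set_option autoImplicit false

namespace Pool.Agent.H56.E.H14.G3

open Pool.Agent.H14.G3

open Finset Pool.Agent.H6.N4D Pool.Agent.H78.GX.H6.N4D Pool.Agent.H93.EB Pool.Agent.H93.GS Pool.Agent.H56.G3 Pool.Agent.H56.E.H56.G3

/-- the tiles -/
theorem sn_tile {a : ℕ} {p : ℕ} (hp : p.Prime) (n : ℕ) (h1 : 2 ^ a < p)
    (h2 : p ≤ 2 ^ (a * 2 ^ n)) : ∃ i < n, p ∈ QQ (400 * a * 2 ^ i) := by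
  induction n with
  | zero =>
    rw [pow_zero, mul_one] at h2
    omega
  | succ n ih =>
    by_cases h3 : p ≤ 2 ^ (a * 2 ^ n)
    · obtain ⟨i, hi, hq⟩ := ih h3
      exact ⟨i, by omega, hq⟩
    · refine ⟨n, by omega, ?_⟩
      unfold QQ
      rw [mem_filter, mem_Ioc]
      have e1 : 400 * a * 2 ^ n / 400 = a * 2 ^ n := by
        rw [mul_assoc, Nat.mul_div_cancel_left _ (by norm_num)]
      have e2 : 400 * a * 2 ^ n / 200 = a * 2 ^ (n + 1) := by
        have : 400 * a * 2 ^ n = 200 * (a * 2 ^ (n + 1)) := by ring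
        rw [this, Nat.mul_div_cancel_left _ (by norm_num)]
      rw [e1, e2]
      exact ⟨⟨by omega, h2⟩, hp⟩

theorem pf_SN (hSIZ : T_SIZ) : T_SN := by
  intro K r A hK
  obtain ⟨X₂, hX₂⟩ := hSIZ
  have hKr : (1 : ℝ) ≤ K := by exact_mod_cast hK
  set C4 : ℝ := 400 * 2 ^ (2 * K + 1) with hC4
  have hC40 : 0 < C4 := by positivity
  have hA3 : (0 : ℝ) < |A| + 3 := by positivity
  have e1 : ∀ᶠ X : ℝ in Filter.atTop, |A| + 4 ≤ LL X := tendsto_LL.eventually_ge_atTop _
  have e2 : ∀ᶠ X : ℝ in Filter.atTop,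
      2 * ((r + 3) * Real.log 2 + Real.log (|A| + 3)) ≤ LL X := tendsto_LL.eventually_ge_atTop _
  have hall := e1.and (e2.and ((Filter.eventually_ge_atTop (1 : ℝ)).and
    (Filter.eventually_ge_atTop X₂)))
  rw [Filter.eventually_atTop] at hall
  obtain ⟨X₁, hX₁⟩ := hall
  refine ⟨X₁, ?_⟩
  intro S k₁ hS hX
  obtain ⟨f1, f2', f4, f5⟩ := hX₁ S.X hX
  obtain ⟨-, -, -, -, -, -, -, -, g9, -, -, -, -⟩ := hX₂ S hS.ok f5
  have hLd : LL S.X = S.L := rfl
  rw [hLd] at f1 f2'
  have hXp : 0 < S.X := by linarith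
  have hA0 := abs_nonneg A
  have hAl := le_abs_self A
  -- the number of the top level
  obtain ⟨M, hM⟩ : ∃ M : ℝ, M = (2 : ℝ) ^ (2 * K + 12) * S.L := ⟨_, rfl⟩
  have h4K : (2 : ℝ) ^ (2 * K + 12) = 4096 * 2 ^ (2 * K) := by rw [pow_add]; norm_num; ring
  have hC4' : C4 = 800 * 2 ^ (2 * K) := by rw [hC4, pow_succ]; ring
  have hK4 : (K : ℝ) ≤ 2 ^ (2 * K) := by
    have h1 : K ≤ 2 ^ (2 * K) := (Nat.lt_two_pow_self.le).trans
      (Nat.pow_le_pow_right (by norm_num) (by omega))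
    exact_mod_cast h1
  have hL0' : 0 < S.L := by linarith
  have f2 : 2 * (13 * K + C4) * S.L + 2 * ((r + 3) * Real.log 2 + Real.log (|A| + 3)) ≤ M := by
    have h1 : K * S.L ≤ 2 ^ (2 * K) * S.L := mul_le_mul_of_nonneg_right hK4 hL0'.le
    have h2 : S.L ≤ 2 ^ (2 * K) * S.L := le_mul_of_one_le_left hL0'.le (hKr.trans hK4)
    rw [hM, h4K, hC4']
    linarith
  -- the scale `u = 2 ^ k₁`
  obtain ⟨u, hu⟩ : ∃ u : ℝ, u = 2 ^ k₁ := ⟨_, rfl⟩
  have hxa := hS.xa
  have hk2 : (2 : ℝ) ^ k₁ ≤ u := hu.ge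
  rw [← hu] at hxa
  have f3 : |A| + 100 ≤ u := by
    have h1 : (k₁ : ℝ) ≤ 2 ^ k₁ := by exact_mod_cast (Nat.lt_two_pow_self).le
    have h2 := hS.k0
    have h3 : S.L ≤ 2 ^ (2 * K) * S.L := le_mul_of_one_le_left hL0'.le (hKr.trans hK4)
    rw [h4K] at h2
    rw [hu]
    linarith
  have hu1 : 1 ≤ u := by linarith
  have hk1 : (1 : ℝ) ≤ 2 ^ k₁ := one_le_pow₀ (by norm_num)
  obtain ⟨D, hD⟩ : ∃ D : ℝ, D = 2 ^ (k₁ - r) := ⟨_, rfl⟩
  have hD0 : 0 < D := by rw [hD]; positivity
  have hDr : D * 2 ^ r = 2 ^ k₁ := by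
    rw [hD, ← pow_add, Nat.sub_add_cancel hS.rk]
  have hDk : D ≤ 2 ^ k₁ := by
    rw [hD]
    exact pow_le_pow_right₀ (by norm_num) (Nat.sub_le _ _)
  have hrh := hS.rh
  rw [← hD] at hrh
  have hxa0 : 0 < S.x S.a := Par.x_pos _
  have hxb0 : 0 < S.x S.b := Par.x_pos _
  have hok := hS.ok
  have hKS := hS.hK
  have hNh : 0 ≤ S.N * S.h := by
    refine le_trans ?_ hok.hI1
    rw [hKS]
    have : 0 ≤ S.L := by linarith
    positivity
  have hN0 : 0 ≤ S.N := by
    by_contra hneg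
    push Not at hneg
    have := mul_neg_of_neg_of_pos hneg hok.hh
    linarith
  have hab : S.a ≤ S.b := by
    have h1 : (S.a : ℝ) ≤ S.b := by
      have h2 : S.N = (S.b : ℝ) - S.a := rfl
      linarith
    exact_mod_cast h1
  have hxab : S.x S.a ≤ S.x S.b := Par.x_mono hok.hh hab
  have hxbe : S.x S.b = S.x S.a * Real.exp (S.N * S.h) := by
    unfold Par.x Par.N
    rw [← Real.exp_add]
    congr 1
    ring
  have hrho := hok.hr0
  have hI2 := hok.hI2
  rw [hKS] at hI2
  have hI1 := hok.hI1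
  rw [hKS] at hI1
  have hL0 : 0 < S.L := by linarith
  have hlog2 : (1 / 2 : ℝ) ≤ Real.log 2 := by
    have := Real.log_two_gt_d9
    linarith
  have hlog2' : Real.log 2 ≤ 1 := by
    have := Real.log_two_lt_d9
    linarith
  have hlog2p : 0 < Real.log 2 := by linarith
  -- the upper bound for `rho`
  have hrx : S.rho * (8 * u ^ 4) ≤ D := by
    rw [← hrh]
    refine mul_le_mul_of_nonneg_left ?_ hrho.le
    linarith
  have hDu : D ≤ u := hDk.trans hk2
  have hu3 : 1 ≤ u ^ 3 := one_le_pow₀ hu1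
  have hrho8 : S.rho * (8 * u ^ 3) ≤ 1 := by
    have h1 : S.rho * (8 * u ^ 3) * u ≤ 1 * u := by
      calc S.rho * (8 * u ^ 3) * u = S.rho * (8 * u ^ 4) := by ring
        _ ≤ D := hrx
        _ ≤ 1 * u := by linarith
    exact le_of_mul_le_mul_right h1 (by linarith)
  have hu2 : u ≤ u ^ 3 := by
    calc u = u * 1 := by ring
      _ ≤ u * u ^ 2 := mul_le_mul_of_nonneg_left (one_le_pow₀ hu1) (by linarith)
      _ = u ^ 3 := by ring
  have hrhou : S.rho * (8 * u) ≤ 1 :=
    (mul_le_mul_of_nonneg_left (by linarith) hrho.le).trans hrho8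
  have hrho100 : S.rho ≤ 1 / 100 := by
    have h1 : S.rho * 100 ≤ S.rho * (8 * u) :=
      mul_le_mul_of_nonneg_left (by linarith) hrho.le
    linarith
  have hrhoA : A * S.rho ≤ 1 := by
    have h1 : S.rho * A ≤ S.rho * (8 * u) :=
      mul_le_mul_of_nonneg_left (by linarith) hrho.le
    linarith
  have hrhok : S.rho * 2 ^ k₁ ≤ 1 / 4 := by
    have h1 : S.rho * 2 ^ k₁ ≤ S.rho * u := mul_le_mul_of_nonneg_left hk2 hrho.le
    linarith
  -- the lower bound for `rho x a`
  obtain ⟨E, hE⟩ : ∃ E, E = Real.exp (C4 * S.L) := ⟨_, rfl⟩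
  have hE1 : 1 ≤ E := by
    rw [hE]
    exact Real.one_le_exp (by positivity)
  have hk0 : M ≤ k₁ := by rw [hM]; exact hS.k0
  have hmain : (|A| + 3) * E ≤ S.rho * S.x S.a := by
    have h1 : S.rho * S.x S.a * (8 * Real.exp (S.N * S.h)) = D := by
      rw [← hrh, hxbe]
      ring
    have h2 : (|A| + 3) * E * (8 * Real.exp (13 * K * S.L)) * 2 ^ r ≤ D * 2 ^ r := by
      rw [hDr]
      have h3 : (|A| + 3) * E * (8 * Real.exp (13 * K * S.L)) * 2 ^ r =
          Real.exp (Real.log (|A| + 3) + C4 * S.L + (3 * Real.log 2 + 13 * K * S.L) +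
            r * Real.log 2) := by
        rw [Real.exp_add, Real.exp_add, Real.exp_add, Real.exp_add, Real.exp_log hA3, ← hE]
        have e8 : Real.exp (3 * Real.log 2) = 8 := by
          have := Real.exp_nat_mul (Real.log 2) 3
          push_cast at this
          rw [this, Real.exp_log (by norm_num)]
          norm_num
        have er : Real.exp (r * Real.log 2) = 2 ^ r := by
          rw [Real.exp_nat_mul, Real.exp_log (by norm_num)]
        rw [e8, er]
      have h4 : (2 : ℝ) ^ k₁ = Real.exp (k₁ * Real.log 2) := by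
        rw [Real.exp_nat_mul, Real.exp_log (by norm_num)]
      rw [h3, h4]
      apply Real.exp_le_exp.2
      have h5 : M * (1 / 2) ≤ k₁ * Real.log 2 :=
        mul_le_mul hk0 hlog2 (by norm_num) (by positivity)
      linarith
    have h2' : (|A| + 3) * E * (8 * Real.exp (13 * K * S.L)) ≤ D :=
      le_of_mul_le_mul_right h2 (by positivity)
    have h6 : (|A| + 3) * E * (8 * Real.exp (S.N * S.h)) ≤
        S.rho * S.x S.a * (8 * Real.exp (S.N * S.h)) := by
      rw [h1]
      refine le_trans ?_ h2'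
      refine mul_le_mul_of_nonneg_left ?_ (by positivity)
      refine mul_le_mul_of_nonneg_left (Real.exp_le_exp.2 ?_) (by norm_num)
      linarith
    exact le_of_mul_le_mul_right h6 (by positivity)
  -- the levels
  obtain ⟨a, ha⟩ : ∃ a : ℕ, a = ⌊S.L / Real.log 2⌋₊ := ⟨_, rfl⟩
  have hlv : ∀ i, lv S.X i = 400 * a * 2 ^ i := by
    intro i
    unfold lv
    rw [hLd, ← ha]
  have ha1 : (a : ℝ) * Real.log 2 ≤ S.L := by
    have h1 : (a : ℝ) ≤ S.L / Real.log 2 := by
      rw [ha]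
      exact Nat.floor_le (by positivity)
    rwa [le_div_iff₀ hlog2p] at h1
  have ha2 : S.L < (a + 1) * Real.log 2 := by
    have h1 : S.L / Real.log 2 < a + 1 := by
      rw [ha]
      exact Nat.lt_floor_add_one _
    rwa [div_lt_iff₀ hlog2p] at h1
  have haL : S.L - 1 ≤ a := by
    have h1 : ((a : ℝ) + 1) * Real.log 2 ≤ (a + 1) * 1 :=
      mul_le_mul_of_nonneg_left hlog2' (by positivity)
    linarith
  have ha2L : (a : ℝ) ≤ 2 * S.L := by
    have h1 : (a : ℝ) * (1 / 2) ≤ a * Real.log 2 :=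
      mul_le_mul_of_nonneg_left hlog2 (by positivity)
    linarith
  have h2i : ∀ i < 2 * K + 2, (2 : ℝ) ^ i ≤ 2 ^ (2 * K + 1) := fun i hi =>
    pow_le_pow_right₀ (by norm_num) (by omega)
  have hlvr : ∀ i, (lv S.X i : ℝ) = 400 * a * 2 ^ i := by
    intro i
    rw [hlv i]
    push_cast
    ring
  have hlvE : ∀ i < 2 * K + 2, (2 : ℝ) ^ lv S.X i ≤ E := by
    intro i hi
    have h1 : (2 : ℝ) ^ lv S.X i = Real.exp (lv S.X i * Real.log 2) := by
      rw [Real.exp_nat_mul, Real.exp_log (by norm_num)]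
    rw [h1, hE]
    apply Real.exp_le_exp.2
    rw [hlvr i]
    calc 400 * (a : ℝ) * 2 ^ i * Real.log 2 = 400 * 2 ^ i * (a * Real.log 2) := by ring
      _ ≤ 400 * 2 ^ (2 * K + 1) * S.L := by
          refine mul_le_mul ?_ ha1 (by positivity) (by positivity)
          exact mul_le_mul_of_nonneg_left (h2i i hi) (by norm_num)
      _ = C4 * S.L := by rw [hC4]
  refine ⟨by linarith, ?_, hrhok, hrho100, hrhoA, ?_, ?_, ?_⟩
  · -- the length of the stretch
    have h1 : S.L ≤ 12 * K * S.L := by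
      have : 1 * S.L ≤ 12 * K * S.L := mul_le_mul_of_nonneg_right (by linarith) hL0.le
      linarith
    linarith
  · intro t ht
    obtain ⟨-, k2, k3, k4⟩ := g9 t ht
    have ht' := Par.mem_I.1 ht
    have hat : S.x S.a ≤ S.x t := Par.x_mono hok.hh ht'.1
    have htb : S.x t ≤ S.x S.b := Par.x_mono hok.hh ht'.2.le
    have hn0 : (0 : ℝ) ≤ S.n t := Nat.cast_nonneg _
    have hNt1 : (Nt S t : ℝ) ≤ S.rho * S.n t := Nat.floor_le (by positivity)
    have hNt2 : S.rho * S.n t < Nt S t + 1 := Nat.lt_floor_add_one _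
    have hlow : (|A| + 1) * E ≤ Nt S t := by
      have h1 : S.rho * (S.x t - 1) ≤ S.rho * S.n t :=
        mul_le_mul_of_nonneg_left k3.le hrho.le
      have h2 : S.rho * S.x S.a ≤ S.rho * S.x t := mul_le_mul_of_nonneg_left hat hrho.le
      have h3 : (|A| + 3) * E = (|A| + 1) * E + 2 * E := by ring
      linarith
    have hAE : ∀ z : ℝ, 0 ≤ z → z ≤ E → A * z ≤ Nt S t := by
      intro z hz0 hz
      refine le_trans ?_ hlow
      calc A * z ≤ (|A| + 1) * z := mul_le_mul_of_nonneg_right (by linarith) hz0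
        _ ≤ (|A| + 1) * E := mul_le_mul_of_nonneg_left hz (by positivity)
    refine ⟨?_, hNt1, hNt2, ?_, ?_, k4.trans k2, ?_⟩
    · have := hAE 1 zero_le_one hE1
      linarith
    · rw [← hD]
      have h1 : S.rho * S.n t ≤ S.rho * S.x S.b :=
        mul_le_mul_of_nonneg_left (k4.trans htb) hrho.le
      have h2 : S.rho * (8 * S.x S.b) = S.rho * S.x S.b * 8 := by ring
      linarith
    · have h1 : A * 2 ^ k₁ ≤ (|A| + 1) * u := by
        calc A * 2 ^ k₁ ≤ (|A| + 1) * 2 ^ k₁ :=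
              mul_le_mul_of_nonneg_right (by linarith) (by positivity)
          _ ≤ (|A| + 1) * u := mul_le_mul_of_nonneg_left hk2 (by positivity)
      have h2 : (|A| + 1) * u ≤ u * u := mul_le_mul_of_nonneg_right (by linarith) (by linarith)
      have hu1' : 1 ≤ u * u := one_le_mul_of_one_le_of_one_le hu1 hu1
      have hu2' : 2 ≤ u * u := by
        have : 2 * 1 ≤ u * u := mul_le_mul (by linarith) hu1 (by norm_num) (by linarith)
        linarith
      have h3 : u * u + 1 ≤ u ^ 4 := by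
        have h5 : 2 * (u * u) ≤ u * u * (u * u) :=
          mul_le_mul_of_nonneg_right hu2' (by linarith)
        have h6 : u * u * (u * u) = u ^ 4 := by ring
        linarith only [h5, h6, hu1']
      linarith only [h1, h2, h3, hxa, hat, k3]
    · intro i hi
      exact hAE _ (by positivity) (hlvE i hi)
  · intro i hi
    have ha1' : 1 ≤ a := by
      have : (0 : ℝ) < a := by linarith
      have h2 : 0 < a := by exact_mod_cast this
      omega
    have h2p : (1 : ℝ) ≤ 2 ^ i := one_le_pow₀ (by norm_num)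
    refine ⟨?_, ?_, ?_⟩
    · rw [hlv i]
      have : 1 ≤ 2 ^ i := Nat.one_le_two_pow
      calc 400 = 400 * 1 * 1 := by norm_num
        _ ≤ 400 * a * 2 ^ i := Nat.mul_le_mul (Nat.mul_le_mul le_rfl ha1') this
    · rw [hlvr i]
      have h1 : 400 * (a : ℝ) * 1 ≤ 400 * a * 2 ^ i :=
        mul_le_mul_of_nonneg_left h2p (by positivity)
      linarith
    · rw [hlvr i]
      calc 400 * (a : ℝ) * 2 ^ i ≤ 400 * (2 * S.L) * 2 ^ (2 * K + 1) := by
            refine mul_le_mul ?_ (h2i i hi) (by positivity) (by positivity)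
            exact mul_le_mul_of_nonneg_left ha2L (by norm_num)
        _ = 2 * C4 * S.L := by rw [hC4]; ring
        _ ≤ M := by
            have h3 : 0 ≤ 2 * (13 * (K : ℝ)) * S.L := by positivity
            have h4 : 0 ≤ (r + 3) * Real.log 2 + Real.log (|A| + 3) := by
              have : 0 ≤ Real.log (|A| + 3) := Real.log_nonneg (by linarith)
              positivity
            linarith
        _ ≤ k₁ := hk0
  · intro p hp
    have hP0 : 0 < S.P := Par.P_pos
    have hpm : S.P < p ∧ (p : ℝ) ≤ S.P ^ (2 * S.K) ∧ p.Prime := by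
      have := hp
      unfold Par.Q at this
      rwa [mem_Pr (by positivity)] at this
    obtain ⟨h1, h2, h3⟩ := hpm
    have hPL : S.P = Real.exp S.L := rfl
    have h4 : 2 ^ a < p := by
      have h5 : (2 : ℝ) ^ a ≤ S.P := by
        have h6 : (2 : ℝ) ^ a = Real.exp (a * Real.log 2) := by
          rw [Real.exp_nat_mul, Real.exp_log (by norm_num)]
        rw [h6, hPL]
        exact Real.exp_le_exp.2 ha1
      have h7 : (2 : ℝ) ^ a < p := by linarith
      exact_mod_cast h7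
    have h8 : p ≤ 2 ^ (a * 2 ^ (2 * K + 2)) := by
      have h9 : S.P ^ (2 * S.K) ≤ (2 : ℝ) ^ (a * 2 ^ (2 * K + 2)) := by
        have h10 : (2 : ℝ) ^ (a * 2 ^ (2 * K + 2)) =
            Real.exp ((a * 2 ^ (2 * K + 2) : ℕ) * Real.log 2) := by
          rw [Real.exp_nat_mul, Real.exp_log (by norm_num)]
        rw [h10, hPL, ← Real.exp_nat_mul, hKS]
        apply Real.exp_le_exp.2
        push_cast
        have h11 : S.L / 2 ≤ a * Real.log 2 := by
          have h15 : ((a : ℝ) + 1) * Real.log 2 = a * Real.log 2 + Real.log 2 := by ring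
          linarith only [h15, ha2, hlog2', f1, hA0]
        have h12 : (2 * (K : ℝ)) ≤ 2 ^ (2 * K + 1) := by
          have h13 : 2 * K ≤ 2 ^ (2 * K + 1) :=
            (Nat.lt_two_pow_self.le).trans (Nat.pow_le_pow_right (by norm_num) (by omega))
          exact_mod_cast h13
        calc 2 * (K : ℝ) * S.L ≤ 2 ^ (2 * K + 1) * S.L :=
              mul_le_mul_of_nonneg_right h12 hL0.le
          _ = 2 ^ (2 * K + 2) * (S.L / 2) := by rw [pow_succ]; ring
          _ ≤ 2 ^ (2 * K + 2) * (a * Real.log 2) :=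
              mul_le_mul_of_nonneg_left h11 (by positivity)
          _ = a * 2 ^ (2 * K + 2) * Real.log 2 := by ring
      have h14 : (p : ℝ) ≤ (2 : ℝ) ^ (a * 2 ^ (2 * K + 2)) := h2.trans h9
      exact_mod_cast h14
    obtain ⟨i, hi, hq⟩ := sn_tile h3 (2 * K + 2) h4 h8
    exact ⟨i, hi, by rw [hlv i]; exact hq⟩

end Pool.Agent.H56.E.H14.G3
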