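import Pool.Agent.H56.E.Base
import Pool.Agent.H56.E.H56.G3.TS
import Pool.Agent.H78.GX.H6.N4D.TA

/-!
# Theorem (G), MP_c59857_nt, row SV: sliding windows of the stretch
-/

set_option autoImplicit false

namespace Pool.Agent.H56.E.H14.G3

open Pool.Agent.H14.G3

open Finset Pool.Agent.H6.N4D Pool.Agent.H78.GX.H6.N4D Pool.Agent.H93.EB Pool.Agent.H93.GS Pool.Agent.H56.G3 Pool.Agent.H56.E.H56.G3

theorem sv_sl_abs {F : ℕ → ℝ} (hF : ∀ n, |F n| ≤ 1) (H n : ℕ) : |sl H n F| ≤ 1 := by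
  unfold sl
  rw [abs_div, Nat.abs_cast]
  refine div_le_one_of_le₀ ?_ (Nat.cast_nonneg _)
  calc |∑ j ∈ range H, F (n + j)| ≤ ∑ j ∈ range H, |F (n + j)| := abs_sum_le_sum_abs _ _
    _ ≤ ∑ _j ∈ range H, (1 : ℝ) := Finset.sum_le_sum fun j _ => hF _
    _ = H := by simp

/-- one block -/
theorem sv_block (hSF : T_SF) {F : ℕ → ℝ} (hF : ∀ n, |F n| ≤ 1) {w : ℕ} (hw : w = 1 ∨ w = 2)
    {ρ : ℝ} (hρ0 : 0 < ρ) (hρ1 : ρ ≤ 1 / 100) {a b : ℕ} (ha : 2 ≤ ρ * a) (k : ℕ) :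
    |∑ n ∈ (Ico a b).filter (fun n : ℕ => ⌊ρ * (n : ℝ)⌋₊ = k),
      (sl (w * ⌊ρ * (n : ℝ)⌋₊) n F / n - F n / n)| ≤ 8 * ρ := by
  have hset : (Ico a b).filter (fun n : ℕ => ⌊ρ * (n : ℝ)⌋₊ = k) =
      Ico (max a ⌈(k : ℝ) / ρ⌉₊) (min b ⌈((k : ℝ) + 1) / ρ⌉₊) := by
    ext n
    rw [mem_filter, mem_Ico, mem_Ico, Nat.floor_eq_iff (by positivity), max_le_iff, lt_min_iff,
      Nat.ceil_le, Nat.lt_ceil, div_le_iff₀ hρ0, lt_div_iff₀ hρ0, mul_comm ρ (n : ℝ)]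
    tauto
  have hk : ∀ n ∈ (Ico a b).filter (fun n : ℕ => ⌊ρ * (n : ℝ)⌋₊ = k),
      sl (w * ⌊ρ * (n : ℝ)⌋₊) n F / n - F n / n = sl (w * k) n F / n - F n / n := by
    intro n hn
    rw [(mem_filter.1 hn).2]
  rw [Finset.sum_congr rfl hk, hset]
  obtain ⟨A, hA⟩ : ∃ A, A = max a ⌈(k : ℝ) / ρ⌉₊ := ⟨_, rfl⟩
  obtain ⟨B, hB⟩ : ∃ B, B = min b ⌈((k : ℝ) + 1) / ρ⌉₊ := ⟨_, rfl⟩
  rw [← hA, ← hB] at hset ⊢
  rcases le_or_gt B A with h1 | h1
  · rw [Finset.Ico_eq_empty (by omega), Finset.sum_empty, abs_zero]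
    positivity
  · have hmem : A ∈ (Ico a b).filter (fun n : ℕ => ⌊ρ * (n : ℝ)⌋₊ = k) := by
      rw [hset, mem_Ico]
      omega
    rw [mem_filter, mem_Ico, Nat.floor_eq_iff (by positivity)] at hmem
    obtain ⟨⟨h2, -⟩, h3, h4⟩ := hmem
    have haA : (a : ℝ) ≤ A := by exact_mod_cast h2
    have hρA : ρ * a ≤ ρ * A := mul_le_mul_of_nonneg_left haA hρ0.le
    have hk1 : 1 ≤ k := by
      have : (0 : ℝ) < k := by linarith
      have : 0 < k := by exact_mod_cast this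
      omega
    have hA0 : (0 : ℝ) < A := by
      by_contra hneg
      push Not at hneg
      have : ρ * A ≤ 0 := mul_nonpos_of_nonneg_of_nonpos hρ0.le hneg
      linarith
    have hwk : ((w * k : ℕ) : ℝ) ≤ 2 * (ρ * A) := by
      push_cast
      have hw2 : (w : ℝ) ≤ 2 := by
        rcases hw with rfl | rfl <;> norm_num
      calc (w : ℝ) * k ≤ 2 * k := mul_le_mul_of_nonneg_right hw2 (Nat.cast_nonneg _)
        _ ≤ 2 * (ρ * A) := mul_le_mul_of_nonneg_left h3 (by norm_num)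
    have h5 : 1 ≤ w * k := by
      rcases hw with rfl | rfl <;> omega
    have h6 : w * k ≤ A := by
      have h7 : ρ * A ≤ 1 / 100 * A := mul_le_mul_of_nonneg_right hρ1 hA0.le
      have h8 : ((w * k : ℕ) : ℝ) ≤ A := by linarith
      exact_mod_cast h8
    have h9 := hSF F (w * k) A B hF h5 h6 h1.le
    rw [← Finset.sum_sub_distrib] at h9
    refine h9.trans ?_
    rw [div_le_iff₀ hA0]
    linarith

theorem sv_sum (hSF : T_SF) {F : ℕ → ℝ} (hF : ∀ n, |F n| ≤ 1) {w : ℕ} (hw : w = 1 ∨ w = 2)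
    {ρ : ℝ} (hρ0 : 0 < ρ) (hρ1 : ρ ≤ 1 / 100) {a b : ℕ} (ha : 2 ≤ ρ * a) :
    |∑ n ∈ Ico a b, (sl (w * ⌊ρ * (n : ℝ)⌋₊) n F / n - F n / n)| ≤ 8 * ρ * (ρ * b + 1) := by
  have hmaps : ∀ n ∈ Ico a b, ⌊ρ * (n : ℝ)⌋₊ ∈ range (⌊ρ * (b : ℝ)⌋₊ + 1) := by
    intro n hn
    rw [mem_Ico] at hn
    rw [mem_range]
    have h1 : (n : ℝ) ≤ b := by exact_mod_cast hn.2.le
    have h2 : ⌊ρ * (n : ℝ)⌋₊ ≤ ⌊ρ * (b : ℝ)⌋₊ :=
      Nat.floor_le_floor (mul_le_mul_of_nonneg_left h1 hρ0.le)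
    omega
  rw [← Finset.sum_fiberwise_of_maps_to hmaps]
  refine (abs_sum_le_sum_abs _ _).trans ?_
  refine (Finset.sum_le_sum fun k _ => sv_block hSF hF hw hρ0 hρ1 ha k).trans ?_
  rw [Finset.sum_const, card_range, nsmul_eq_mul]
  push_cast
  have h1 : (⌊ρ * (b : ℝ)⌋₊ : ℝ) ≤ ρ * b := Nat.floor_le (by positivity)
  calc ((⌊ρ * (b : ℝ)⌋₊ : ℝ) + 1) * (8 * ρ) ≤ (ρ * b + 1) * (8 * ρ) :=
        mul_le_mul_of_nonneg_right (by linarith) (by positivity)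
    _ = 8 * ρ * (ρ * b + 1) := by ring

theorem pf_SV (hSF : T_SF) (hSC : T_SC) (_hSN : T_SN) (hSIZ : T_SIZ) : T_SV := by
  intro K ε hK hε
  obtain ⟨X₂, hX₂⟩ := hSIZ
  have hKr : (1 : ℝ) ≤ K := by exact_mod_cast hK
  have e3 : ∀ᶠ X : ℝ in Filter.atTop, 2 / ε + 4 ≤ LL X := tendsto_LL.eventually_ge_atTop _
  have hall := e3.and ((Filter.eventually_ge_atTop (1 : ℝ)).and
    (Filter.eventually_ge_atTop X₂))
  rw [Filter.eventually_atTop] at hall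
  obtain ⟨X₁, hX₁⟩ := hall
  refine ⟨X₁, ?_⟩
  intro S r k₁ w F hS hX hw hF
  obtain ⟨f3, f4, f5⟩ := hX₁ S.X hX
  have hok := hS.ok
  have hKS := hS.hK
  obtain ⟨g1, g2, g3, g4, -, -, -, -, g9, -, -, gN, gI⟩ := hX₂ S hok f5
  have hXp : 0 < S.X := by linarith
  have hrho := hok.hr0
  -- the scale `u = 2 ^ k₁`
  obtain ⟨u, hu⟩ : ∃ u : ℝ, u = 2 ^ k₁ := ⟨_, rfl⟩
  have hxa := hS.xa
  have hk2 : (2 : ℝ) ^ k₁ ≤ u := hu.ge
  rw [← hu] at hxa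
  have hLd : LL S.X = S.L := rfl
  rw [hLd] at f3
  have hL0' : 0 < S.L := by linarith
  have f3 : 2 / ε + 4 ≤ u := by
    have h1 : (k₁ : ℝ) ≤ 2 ^ k₁ := by exact_mod_cast (Nat.lt_two_pow_self).le
    have h2 := hS.k0
    have h3 : S.L ≤ 2 ^ (2 * K + 12) * S.L :=
      le_mul_of_one_le_left hL0'.le (one_le_pow₀ (by norm_num))
    rw [hu]
    linarith
  have h2ε : 0 < 2 / ε := by positivity
  have hu1 : 1 ≤ u := by linarith
  have hu0 : 0 < u := by linarith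
  obtain ⟨D, hD⟩ : ∃ D : ℝ, D = 2 ^ (k₁ - r) := ⟨_, rfl⟩
  have hDk : D ≤ 2 ^ k₁ := by
    rw [hD]
    exact pow_le_pow_right₀ (by norm_num) (Nat.sub_le _ _)
  have hDu : D ≤ u := hDk.trans hk2
  have hrh := hS.rh
  rw [← hD] at hrh
  -- the point `a`
  have hab : S.a < S.b := by
    have h1 : (S.a : ℝ) < S.b := by
      have h2 : S.N = (S.b : ℝ) - S.a := rfl
      linarith
    exact_mod_cast h1
  have haI : S.a ∈ S.I := Par.mem_I.2 ⟨le_rfl, hab⟩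
  obtain ⟨k1, k2, k3, k4⟩ := g9 S.a haI
  have hP100 : 100 ≤ S.P ^ (100 * S.K) := by
    calc (100 : ℝ) ≤ S.P := g2
      _ ≤ S.P ^ (100 * S.K) := le_self_pow₀ (by linarith) (by have := hok.hK; omega)
  have hρa : 2 ≤ S.rho * (S.n S.a : ℝ) := by
    have h1 : S.rho * (S.x S.a - 1) ≤ S.rho * S.n S.a :=
      mul_le_mul_of_nonneg_left k3.le hrho.le
    linarith
  -- the blocks
  have hsum := sv_sum hSF hF hw hrho g4 (a := S.n S.a) (b := S.n S.b) hρa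
  have hG : ∀ n : ℕ, |sl (w * ⌊S.rho * (n : ℝ)⌋₊) n F| ≤ 1 := fun n => sv_sl_abs hF _ _
  have hxu : u ≤ S.x S.a := by
    have : u ≤ u ^ 4 := le_self_pow₀ hu1 (by norm_num)
    linarith
  have h2x : 2 ≤ S.x S.a := by linarith
  have hL0 : 0 ≤ S.L := by linarith
  have hsc := hSC S (fun n => sl (w * ⌊S.rho * (n : ℝ)⌋₊) n F) hok h2x hL0 hG
  have hdiff : sS S (fun n => sl (w * ⌊S.rho * (n : ℝ)⌋₊) n F) - sS S F =
      ∑ n ∈ Ico (S.n S.a) (S.n S.b), (sl (w * ⌊S.rho * (n : ℝ)⌋₊) n F / n - F n / n) := by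
    unfold sS
    rw [← Finset.sum_sub_distrib]
  rw [← hdiff] at hsum
  have hNt : ∑ t ∈ S.I, sl (w * Nt S t) (S.n t) F =
      ∑ t ∈ S.I, (fun n : ℕ => sl (w * ⌊S.rho * (n : ℝ)⌋₊) n F) (S.n t) := rfl
  rw [hNt]
  -- the sizes
  have hxb0 : 0 < S.x S.b := Par.x_pos _
  have hxab : S.x S.a ≤ S.x S.b := Par.x_mono hok.hh hab.le
  have hr1 : S.rho * u ^ 2 ≤ 1 := by
    have h1 : S.rho * (8 * u ^ 4) ≤ u := by
      have h2 : S.rho * (8 * u ^ 4) ≤ S.rho * (8 * S.x S.b) :=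
        mul_le_mul_of_nonneg_left (by linarith) hrho.le
      linarith
    have h2 : S.rho * u ^ 2 ≤ S.rho * (8 * u ^ 3) := by
      refine mul_le_mul_of_nonneg_left ?_ hrho.le
      have h3 : u ^ 2 * 1 ≤ u ^ 2 * u := mul_le_mul_of_nonneg_left hu1 (by positivity)
      have h4 : (0 : ℝ) ≤ u ^ 3 := by positivity
      linarith [h3, h4, (by ring : u ^ 2 * u = u ^ 3)]
    have h3 : S.rho * (8 * u ^ 3) * u ≤ 1 * u := by
      linarith [h1, (by ring : S.rho * (8 * u ^ 3) * u = S.rho * (8 * u ^ 4))]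
    exact h2.trans (le_of_mul_le_mul_right h3 hu0)
  have i1 : 8 / S.x S.a ≤ 8 / u := div_le_div_of_nonneg_left (by norm_num) hu0 hxu
  have i2 : 4 * S.h * S.X ≤ 4 / u := by
    rw [le_div_iff₀ hu0]
    have h1 : u ≤ S.X ^ 4 := by
      have h2 : u ≤ S.X := hxu.trans (hxab.trans hok.hb)
      exact h2.trans (le_self_pow₀ hok.hX (by norm_num))
    have h2 : S.h * S.X * u ≤ S.h * S.X * S.X ^ 4 :=
      mul_le_mul_of_nonneg_left h1 (mul_nonneg hok.hh.le hXp.le)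
    have h3 : S.h * S.X * S.X ^ 4 = S.h * S.X ^ 5 := by ring
    have h4 := hok.hX5
    linarith
  have i3 : 8 * S.rho * (S.rho * S.n S.b + 1) ≤ 9 / u := by
    rw [le_div_iff₀ hu0]
    have hnb : (S.n S.b : ℝ) ≤ S.x S.b := Nat.floor_le hxb0.le
    have h1 : S.rho * S.n S.b ≤ D / 8 := by
      have : S.rho * S.n S.b ≤ S.rho * S.x S.b := mul_le_mul_of_nonneg_left hnb hrho.le
      have h2 : S.rho * (8 * S.x S.b) = 8 * (S.rho * S.x S.b) := by ring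
      linarith
    have h3 : S.rho * u ≤ S.rho * u ^ 2 :=
      mul_le_mul_of_nonneg_left (le_self_pow₀ hu1 (by norm_num)) hrho.le
    have h4 : 8 * S.rho * (S.rho * S.n S.b + 1) * u ≤ 8 * S.rho * (u / 8 + 1) * u := by
      refine mul_le_mul_of_nonneg_right ?_ hu0.le
      refine mul_le_mul_of_nonneg_left ?_ (by positivity)
      linarith
    have h5 : 8 * S.rho * (u / 8 + 1) * u = S.rho * u ^ 2 + 8 * (S.rho * u) := by ring
    linarith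
  have i4 : 21 / u ≤ ε * (S.N * S.h) := by
    have h1 : 12 ≤ S.N * S.h := by
      refine le_trans ?_ hok.hI1
      rw [hKS]
      have : 1 ≤ K * S.L := one_le_mul_of_one_le_of_one_le hKr g1
      linarith
    have h2 : 21 / u ≤ ε * 12 := by
      rw [div_le_iff₀ hu0]
      have h3 : 2 ≤ ε * u := by
        have h4 : ε * (2 / ε) ≤ ε * u := mul_le_mul_of_nonneg_left (by linarith) hε.le
        have h5 : ε * (2 / ε) = 2 := by field_simp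
        linarith
      linarith
    exact h2.trans (mul_le_mul_of_nonneg_left h1 hε.le)
  have i5 : 8 / u + 4 / u + 9 / u = 21 / u := by ring
  have htri := abs_sub_le (S.h * ∑ t ∈ S.I, (fun n : ℕ => sl (w * ⌊S.rho * (n : ℝ)⌋₊) n F) (S.n t))
    (sS S (fun n => sl (w * ⌊S.rho * (n : ℝ)⌋₊) n F)) (sS S F)
  linarith

end Pool.Agent.H56.E.H14.G3
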